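import Mathlib
import Pool.Agent.P8H12.SO.Stm2

/-!
# Project DV, package MIN

Minkowski's lemma: an integral matrix of finite order which is congruent to `1` modulo an odd prime
is `1`.
-/

set_option autoImplicit false

namespace Pool.Agent.P8H61.DV

/-- expansion of `(1 + X) ^ m` up to the third order in any ring -/
theorem expand {R : Type*} [Ring R] (X : R) (m : ℕ) :
    ∃ Y : R, (1 + X) ^ m = 1 + (m : R) * X + ((m.choose 2 : ℕ) : R) * X ^ 2 + X ^ 3 * Y := by
  induction m with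
  | zero => exact ⟨0, by simp⟩
  | succ m ih =>
    obtain ⟨Y, hY⟩ := ih
    refine ⟨((m.choose 2 : ℕ) : R) + Y * (1 + X), ?_⟩
    have hc : (m + 1).choose 2 = m + m.choose 2 := by
      rw [Nat.choose_succ_succ' m 1]
      simp
    have h3 : X ^ 3 * ((m.choose 2 : ℕ) : R) = ((m.choose 2 : ℕ) : R) * X ^ 3 :=
      (Nat.cast_commute (m.choose 2) (X ^ 3)).eq.symm
    rw [pow_succ, hY, hc, mul_add (X ^ 3), h3]
    push_cast
    noncomm_ring

/-- the powers of an element congruent to `1` modulo `q` are congruent to `1` modulo `q` -/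
theorem pow_cong {n : ℕ} {q : ℤ} {M : Matrix (Fin n) (Fin n) ℤ}
    (h : ∃ B : Matrix (Fin n) (Fin n) ℤ, M = 1 + q • B) (s : ℕ) :
    ∃ B : Matrix (Fin n) (Fin n) ℤ, M ^ s = 1 + q • B := by
  obtain ⟨B, hB⟩ := h
  induction s with
  | zero => exact ⟨0, by simp⟩
  | succ s ih =>
    obtain ⟨C, hC⟩ := ih
    refine ⟨C + B + q • (C * B), ?_⟩
    rw [pow_succ, hC, hB]
    simp only [mul_add, add_mul, one_mul, mul_one, smul_mul_assoc, mul_smul_comm, smul_add]
    abel

/-- one step of the descent -/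
theorem step {n q p r : ℕ} (hq : q.Prime) (hq2 : q ≠ 2) (hp : p.Prime) (hr : 1 ≤ r)
    {N B : Matrix (Fin n) (Fin n) ℤ} (hN : N ^ p = 1) (hB : N = 1 + ((q : ℤ) ^ r) • B) :
    ∃ C : Matrix (Fin n) (Fin n) ℤ, N = 1 + ((q : ℤ) ^ (r + 1)) • C := by
  have hq0 : (q : ℤ) ≠ 0 := by exact_mod_cast hq.ne_zero
  obtain ⟨Y, hY⟩ := expand (((q : ℤ) ^ r) • B) p
  rw [← hB, hN] at hY
  have h1 : (0 : Matrix (Fin n) (Fin n) ℤ) =
      ((p : Matrix (Fin n) (Fin n) ℤ)) * (((q : ℤ) ^ r) • B) +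
      ((p.choose 2 : ℕ) : Matrix (Fin n) (Fin n) ℤ) * (((q : ℤ) ^ r) • B) ^ 2 +
      (((q : ℤ) ^ r) • B) ^ 3 * Y := by
    have h2 : (1 : Matrix (Fin n) (Fin n) ℤ) + 0 = 1 + (((p : Matrix (Fin n) (Fin n) ℤ)) *
        (((q : ℤ) ^ r) • B) + ((p.choose 2 : ℕ) : Matrix (Fin n) (Fin n) ℤ) *
        (((q : ℤ) ^ r) • B) ^ 2 + (((q : ℤ) ^ r) • B) ^ 3 * Y) := by
      rw [add_zero]
      nth_rewrite 1 [hY]
      abel
    exact add_left_cancel h2
  have e1 : ((p : Matrix (Fin n) (Fin n) ℤ)) * (((q : ℤ) ^ r) • B) =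
      ((p : ℤ) * (q : ℤ) ^ r) • B := by
    rw [← nsmul_eq_mul, ← natCast_zsmul, smul_smul]
  have e2 : ((p.choose 2 : ℕ) : Matrix (Fin n) (Fin n) ℤ) * (((q : ℤ) ^ r) • B) ^ 2 =
      (((p.choose 2 : ℕ) : ℤ) * (q : ℤ) ^ (2 * r)) • (B ^ 2) := by
    rw [← nsmul_eq_mul, ← natCast_zsmul, smul_pow, smul_smul, ← pow_mul, mul_comm r 2]
  have e3 : (((q : ℤ) ^ r) • B) ^ 3 * Y = ((q : ℤ) ^ (3 * r)) • (B ^ 3 * Y) := by
    rw [smul_pow, smul_mul_assoc, ← pow_mul, mul_comm r 3]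
  rw [e1, e2, e3] at h1
  have hent : ∀ i j, (q : ℤ) ∣ B i j := by
    intro i j
    have h2 := congrFun (congrFun h1 i) j
    simp only [Matrix.zero_apply, Matrix.add_apply, Matrix.smul_apply, smul_eq_mul] at h2
    by_cases hpq : p = q
    · subst hpq
      have hodd : p.choose 2 = p * ((p - 1) / 2) := by
        rw [Nat.choose_two_right]
        have h2 : 2 ∣ p - 1 := by
          have := hp.eq_two_or_odd
          omega
        rw [Nat.mul_div_assoc p h2]
      rw [hodd] at h2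
      push_cast at h2
      obtain ⟨r', rfl⟩ : ∃ r', r = r' + 1 := ⟨r - 1, by omega⟩
      have h3 : (p : ℤ) ^ (r' + 2) * (B i j + (p : ℤ) * ((p : ℤ) ^ r' * (((p - 1) / 2 : ℕ) : ℤ) *
          (B ^ 2) i j + (p : ℤ) ^ (2 * r') * (B ^ 3 * Y) i j)) = 0 := by
        rw [h2]
        push_cast
        ring
      rcases mul_eq_zero.1 h3 with h4 | h4
      · exact absurd h4 (pow_ne_zero _ hq0)
      · exact ⟨-((p : ℤ) ^ r' * (((p - 1) / 2 : ℕ) : ℤ) *
          (B ^ 2) i j + (p : ℤ) ^ (2 * r') * (B ^ 3 * Y) i j), by linear_combination h4⟩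
    · obtain ⟨r', rfl⟩ : ∃ r', r = r' + 1 := ⟨r - 1, by omega⟩
      have h3 : (q : ℤ) ^ (r' + 1) * ((p : ℤ) * B i j + (q : ℤ) * ((q : ℤ) ^ r' *
          ((p.choose 2 : ℕ) : ℤ) * (B ^ 2) i j + (q : ℤ) ^ (2 * r' + 1) * (B ^ 3 * Y) i j)) = 0 := by
        rw [h2]
        ring
      rcases mul_eq_zero.1 h3 with h4 | h4
      · exact absurd h4 (pow_ne_zero _ hq0)
      · have h5 : (q : ℤ) ∣ (p : ℤ) * B i j := ⟨-((q : ℤ) ^ r' *
          ((p.choose 2 : ℕ) : ℤ) * (B ^ 2) i j + (q : ℤ) ^ (2 * r' + 1) * (B ^ 3 * Y) i j), by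
            linear_combination h4⟩
        have hcop : IsCoprime (q : ℤ) (p : ℤ) := by
          rw [Nat.isCoprime_iff_coprime]
          exact (Nat.coprime_primes hq hp).2 (fun h => hpq h.symm)
        exact hcop.dvd_of_dvd_mul_left h5
  choose C hC using hent
  refine ⟨Matrix.of C, ?_⟩
  rw [hB]
  congr 1
  ext i j
  simp only [Matrix.smul_apply, smul_eq_mul, Matrix.of_apply]
  rw [hC i j]
  ring

/-- an integral matrix of prime order congruent to `1` modulo an odd prime is `1` -/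
theorem prime_case {n q p : ℕ} (hq : q.Prime) (hq2 : q ≠ 2) (hp : p.Prime)
    {N : Matrix (Fin n) (Fin n) ℤ} (hN : N ^ p = 1)
    (h : ∃ B : Matrix (Fin n) (Fin n) ℤ, N = 1 + (q : ℤ) • B) : N = 1 := by
  have hall : ∀ r : ℕ, ∃ B : Matrix (Fin n) (Fin n) ℤ, N = 1 + ((q : ℤ) ^ (r + 1)) • B := by
    intro r
    induction r with
    | zero => simpa using h
    | succ r ih =>
      obtain ⟨B, hB⟩ := ih
      exact step hq hq2 hp (Nat.succ_le_succ (Nat.zero_le r)) hN hB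
  ext i j
  by_contra hne
  have hne' : N i j - (1 : Matrix (Fin n) (Fin n) ℤ) i j ≠ 0 := sub_ne_zero.2 hne
  have hdvd : ∀ r : ℕ, (q : ℤ) ^ (r + 1) ∣ N i j - (1 : Matrix (Fin n) (Fin n) ℤ) i j := by
    intro r
    obtain ⟨B, hB⟩ := hall r
    refine ⟨B i j, ?_⟩
    have := congrFun (congrFun hB i) j
    simp only [Matrix.add_apply, Matrix.smul_apply, smul_eq_mul] at this
    rw [this]
    ring
  set d := N i j - (1 : Matrix (Fin n) (Fin n) ℤ) i j with hd
  have h1 := Int.le_of_dvd (abs_pos.2 hne') ((dvd_abs _ _).2 (hdvd d.natAbs))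
  have h2 : (d.natAbs : ℤ) + 1 < (q : ℤ) ^ (d.natAbs + 1) := by
    have := Nat.lt_pow_self (n := d.natAbs + 1) hq.one_lt
    exact_mod_cast this
  rw [← Int.natCast_natAbs] at h1
  linarith

/-- Package MIN. -/
theorem min : Pool.Agent.P8H12.ST.S_MIN := by
  intro q n hq hq2 M t
  induction t using Nat.strong_induction_on with
  | _ t ih =>
    intro ht hM h
    by_cases h1 : t = 1
    · subst h1
      simpa using hM
    · obtain ⟨p, hp, s, rfl⟩ := Nat.exists_prime_and_dvd h1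
      have hs : 0 < s := Nat.pos_of_mul_pos_left ht |> fun h => by
        rcases Nat.eq_zero_or_pos s with h0 | h0
        · subst h0
          simp at ht
        · exact h0
      have hlt : s < p * s := by
        have := hp.two_le
        nlinarith
      have hMs : M ^ s = 1 := by
        refine prime_case hq hq2 hp ?_ (pow_cong h s)
        rw [← pow_mul, mul_comm]
        exact hM
      exact ih s hlt hs hMs h

end Pool.Agent.P8H61.DV
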